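import Pool.Agent.KS6_23.SH.Shadow

/-!
# The exact shadow of `f(X^j)` for real-rooted `f`

For every `j ≥ 2` and every real polynomial `f` of positive degree all of whose roots are real, the
shadow of `P = f(X^j)` is the union of the segments from the centre `0` to the roots of `P`.  For
`f = (X - a^j)(X + b^j)` this gives polynomials of degree `2 j` with roots in convex position, not
forming a regular polygon, whose shadow is a star with `2 j` arms.
-/

set_option autoImplicit false

open Polynomial Complex Pool.Agent.KS6_23.SH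

namespace Pool.Agent.Results.MP_424c76_an.ExactShadow

theorem zeroSet_C_mul {c : ℂ} (hc : c ≠ 0) (P : ℂ[X]) : zeroSet (C c * P) = zeroSet P := by
  have hQ : ∀ n m, Q (C c * P) n m = C (c ^ n) * Q P n m := by
    intro n m
    unfold Q
    rw [mul_pow, ← C_pow, iterate_derivative_C_mul]
  ext z
  unfold zeroSet
  simp only [Set.mem_ofPred_eq, natDegree_C_mul hc, hQ, IsRoot.def, eval_mul, eval_C, mul_eq_zero]
  constructor
  · rintro ⟨n, m, h1, h2, h3 | h3⟩
    · exact absurd h3 (pow_ne_zero _ hc)
    · exact ⟨n, m, h1, h2, h3⟩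
  · rintro ⟨n, m, h1, h2, h3⟩
    exact ⟨n, m, h1, h2, Or.inr h3⟩

theorem part1 (j : ℕ) (f : ℝ[X]) (hj : 2 ≤ j) (hs : f.Splits) (hd : 0 < f.natDegree) :
    shadow ((expand ℝ j f).map (algebraMap ℝ ℂ)) =
      ⋃ w ∈ {w : ℂ | ((expand ℝ j f).map (algebraMap ℝ ℂ)).IsRoot w}, segment ℝ (0 : ℂ) w := by
  have hf0 : f ≠ 0 := by
    rintro rfl
    simp at hd
  set a := f.leadingCoeff with ha
  have ha0 : a ≠ 0 := leadingCoeff_ne_zero.2 hf0
  set g : ℝ[X] := C a⁻¹ * f with hg
  have hgm : g.Monic := by
    unfold Monic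
    rw [hg, leadingCoeff_mul, leadingCoeff_C, ← ha, inv_mul_cancel₀ ha0]
  have hgd : 0 < g.natDegree := by rw [hg, natDegree_C_mul (inv_ne_zero ha0)]; exact hd
  have hgs : g.Splits := hs.C_mul _
  have hfg : f = C a * g := by
    rw [hg, ← mul_assoc, ← C_mul, mul_inv_cancel₀ ha0, C_1, one_mul]
  have hl : (expand ℝ j f).map (algebraMap ℝ ℂ) = C (a : ℂ) * KS6_23.SH.lift j g := by
    unfold KS6_23.SH.lift
    conv_lhs => rw [hfg]
    rw [map_mul, expand_C, Polynomial.map_mul, map_C, coe_algebraMap]
  have hac : (a : ℂ) ≠ 0 := by exact_mod_cast ha0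
  rw [hl]
  unfold shadow
  rw [zeroSet_C_mul hac]
  have h := shadow_eq hj hgm hgs hgd
  unfold shadow at h
  rw [h]
  have hr : ∀ w : ℂ, (C (a : ℂ) * KS6_23.SH.lift j g).IsRoot w ↔ (KS6_23.SH.lift j g).IsRoot w := by
    intro w
    simp only [IsRoot.def, eval_mul, eval_C, mul_eq_zero]
    constructor
    · rintro (h | h)
      · exact absurd h hac
      · exact h
    · exact Or.inr
  simp only [hr]

/-- **The exact shadow of `f(X^j)`, `f` real-rooted, `j ≥ 2`, and the disproof of Q1.** -/
theorem result :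
    -- for every real-rooted polynomial `f` of positive degree and every `j ≥ 2` the shadow of
    -- `P = f(X^j)` is the union of the segments from `0` to the roots of `P`
    (∀ (j : ℕ) (f : ℝ[X]), 2 ≤ j → f.Splits → 0 < f.natDegree →
      shadow ((expand ℝ j f).map (algebraMap ℝ ℂ)) =
        ⋃ w ∈ {w : ℂ | ((expand ℝ j f).map (algebraMap ℝ ℂ)).IsRoot w}, segment ℝ (0 : ℂ) w) ∧
    -- for `P = (X^j - a^j)(X^j + b^j)`: convex position, not regular, and the shadow is exactly
    -- the star with centre `0` whose arms end at the `2 j` roots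
    (∀ (j : ℕ) (a b : ℝ), 2 ≤ j → 0 < a → 0 < b → a ≠ b →
      b * Real.cos (Real.pi / j) < a → a * Real.cos (Real.pi / j) < b →
      (poly j a b).natDegree = 2 * j ∧
      RootsInConvexPosition (poly j a b) ∧
      ¬ RootsFormRegularPolygon (poly j a b) ∧
      shadow (poly j a b) = ⋃ w ∈ {w : ℂ | (poly j a b).IsRoot w}, segment ℝ (0 : ℂ) w ∧
      interior (shadow (poly j a b)) = ∅ ∧
      ¬ IsClosedDomain (shadow (poly j a b))) := by
  refine ⟨part1, ?_⟩
  intro j a b hj ha hb hab h1 h2
  have hm1 : (X - C (a ^ j) : ℝ[X]).Monic := monic_X_sub_C _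
  have hm2 : (X + C (b ^ j) : ℝ[X]).Monic := monic_X_add_C _
  have hbd : 0 < (base j a b).natDegree := by
    unfold base
    rw [hm1.natDegree_mul hm2, natDegree_X_sub_C, natDegree_X_add_C]
    norm_num
  refine ⟨natDegree_poly (by omega) a b, convexPosition (by omega) ha hb h1 h2,
    not_regular hj ha hb hab, ?_, ?_, not_closedDomain (by omega) a b⟩
  · rw [poly_eq]
    exact part1 j (base j a b) hj (base_splits j a b) hbd
  · by_contra hne
    exact not_open_subset (by omega : 1 ≤ j) isOpen_interior (Set.nonempty_iff_ne_empty.2 hne)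
      (interior_subset.trans (shadow_subset (by omega) a b))

end Pool.Agent.Results.MP_424c76_an.ExactShadow
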